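import Pool.Agent.Lib.MP_72e2e6_nt.P3.A.Act
import Pool.Agent.Lib.MP_72e2e6_nt.P3.A.Fix
import Pool.Agent.Lib.MP_72e2e6_nt.P3.A.Lfn
import Pool.Agent.Lib.MP_72e2e6_nt.P3.A.Lrb
import Pool.Agent.Lib.MP_72e2e6_nt.P3.A.Lrq
import Pool.Agent.Lib.MP_72e2e6_nt.P3.A.Lrx
import Pool.Agent.Lib.MP_72e2e6_nt.P3.A.Vdc
import Pool.Agent.Lib.MP_72e2e6_nt.P3.A2.Act2
import Pool.Agent.Lib.MP_72e2e6_nt.P3.A2.Cnt2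
import Pool.Agent.Lib.MP_72e2e6_nt.P3.A2.Der2
import Pool.Agent.Lib.MP_72e2e6_nt.P3.A2.Dual2
import Pool.Agent.Lib.MP_72e2e6_nt.P3.A2.EqM2
import Pool.Agent.Lib.MP_72e2e6_nt.P3.A2.EqN2
import Pool.Agent.Lib.MP_72e2e6_nt.P3.A2.Lin2
import Pool.Agent.Lib.MP_72e2e6_nt.P3.A2.Lvl
import Pool.Agent.Lib.MP_72e2e6_nt.P3.A2.ThA2
import Pool.Agent.Lib.MP_72e2e6_nt.P3.A2.The2
import Pool.Agent.Lib.MP_72e2e6_nt.P3.A2.Uni2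
import Pool.Agent.Lib.MP_72e2e6_nt.P3.A2.UniF
import Pool.Agent.Lib.MP_72e2e6_nt.P3.A2.Us2
import Pool.Agent.Lib.MP_72e2e6_nt.P3.A2.Vs2
import Pool.Agent.Lib.MP_72e2e6_nt.P3.B.Ah
import Pool.Agent.Lib.MP_72e2e6_nt.P3.B.Has
import Pool.Agent.Lib.MP_72e2e6_nt.P3.B.Omi
import Pool.Agent.Lib.MP_72e2e6_nt.P3.B.Res
import Pool.Agent.Lib.MP_72e2e6_nt.P3.B.Sep
import Pool.Agent.Lib.MP_72e2e6_nt.P3.B.Twb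
import Pool.Agent.Lib.MP_72e2e6_nt.P3.B.Twt
import Pool.Agent.Lib.MP_72e2e6_nt.P3.B.Uc
import Pool.Agent.Lib.MP_72e2e6_nt.P3.C.Cst
import Pool.Agent.Lib.MP_72e2e6_nt.P3.C.Fdl
import Pool.Agent.Lib.MP_72e2e6_nt.P3.C.Fr
import Pool.Agent.Lib.MP_72e2e6_nt.P3.C.FrG
import Pool.Agent.Lib.MP_72e2e6_nt.P3.C.Lc1
import Pool.Agent.Lib.MP_72e2e6_nt.P3.C.Lc2
import Pool.Agent.Lib.MP_72e2e6_nt.P3.C.Lcl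
import Pool.Agent.Lib.MP_72e2e6_nt.P3.C.Nr
import Pool.Agent.Lib.MP_72e2e6_nt.P3.E.Aug
import Pool.Agent.Lib.MP_72e2e6_nt.P3.E.CycV
import Pool.Agent.Lib.MP_72e2e6_nt.P3.E.DscV
import Pool.Agent.Lib.MP_72e2e6_nt.P3.E.FS
import Pool.Agent.Lib.MP_72e2e6_nt.P3.E.FSu
import Pool.Agent.Lib.MP_72e2e6_nt.P3.E.Fr1V
import Pool.Agent.Lib.MP_72e2e6_nt.P3.E.FshV
import Pool.Agent.Lib.MP_72e2e6_nt.P3.E.Kap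
import Pool.Agent.Lib.MP_72e2e6_nt.P3.E.Man
import Pool.Agent.Lib.MP_72e2e6_nt.P3.E.Mrk
import Pool.Agent.Lib.MP_72e2e6_nt.P3.E.OneV
import Pool.Agent.Lib.MP_72e2e6_nt.P3.E.PsiV
import Pool.Agent.Lib.MP_72e2e6_nt.P3.E.ShgV
import Pool.Agent.Lib.MP_72e2e6_nt.P3.E.Soc
import Pool.Agent.Lib.MP_72e2e6_nt.P3.E.Uw
import Pool.Agent.Lib.MP_72e2e6_nt.P3.E.VS
import Pool.Agent.Lib.MP_72e2e6_nt.P3.E.VSb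
import Pool.Agent.Lib.MP_72e2e6_nt.P3.E.VSr
import Pool.Agent.Lib.MP_72e2e6_nt.P3.EN.Clo
import Pool.Agent.Lib.MP_72e2e6_nt.P3.EN.Cvr
import Pool.Agent.Lib.MP_72e2e6_nt.P3.EN.Dvi
import Pool.Agent.Lib.MP_72e2e6_nt.P3.EN.EN
import Pool.Agent.Lib.MP_72e2e6_nt.P3.EN.Fxh
import Pool.Agent.Lib.MP_72e2e6_nt.P3.EN.Nbh
import Pool.Agent.Lib.MP_72e2e6_nt.P3.EN.Ntm
import Pool.Agent.Lib.MP_72e2e6_nt.P3.F.Alp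
import Pool.Agent.Lib.MP_72e2e6_nt.P3.F.Eql
import Pool.Agent.Lib.MP_72e2e6_nt.P3.F.Fdg
import Pool.Agent.Lib.MP_72e2e6_nt.P3.F.Fin
import Pool.Agent.Lib.MP_72e2e6_nt.P3.F.GdT
import Pool.Agent.Lib.MP_72e2e6_nt.P3.F.IdxE
import Pool.Agent.Lib.MP_72e2e6_nt.P3.F.Nbd
import Pool.Agent.Lib.MP_72e2e6_nt.P3.F.Thm
import Pool.Agent.Lib.MP_72e2e6_nt.P3.G.Dep
import Pool.Agent.Lib.MP_72e2e6_nt.P3.G.Fac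
import Pool.Agent.Lib.MP_72e2e6_nt.P3.G.Hst
import Pool.Agent.Lib.MP_72e2e6_nt.P3.G.Nrf
import Pool.Agent.Lib.MP_72e2e6_nt.P3.G.Nrg
import Pool.Agent.Lib.MP_72e2e6_nt.P3.G.Omi1
import Pool.Agent.Lib.MP_72e2e6_nt.P3.G.Onr
import Pool.Agent.Lib.MP_72e2e6_nt.P3.G.Psf
import Pool.Agent.Lib.MP_72e2e6_nt.P3.G.Rgo
import Pool.Agent.Lib.MP_72e2e6_nt.P3.L.Cbg
import Pool.Agent.Lib.MP_72e2e6_nt.P3.L.Cnk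
import Pool.Agent.Lib.MP_72e2e6_nt.P3.L.Dbl
import Pool.Agent.Lib.MP_72e2e6_nt.P3.L.Dbs
import Pool.Agent.Lib.MP_72e2e6_nt.P3.L.Krs
import Pool.Agent.Lib.MP_72e2e6_nt.P3.L.Lk1
import Pool.Agent.Lib.MP_72e2e6_nt.P3.L.Lq1
import Pool.Agent.Lib.MP_72e2e6_nt.P3.L.Lts
import Pool.Agent.Lib.MP_72e2e6_nt.P3.L.Lw0
import Pool.Agent.Lib.MP_72e2e6_nt.P3.L.Tsk
import Pool.Agent.Lib.MP_72e2e6_nt.P3.M.Asl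
import Pool.Agent.Lib.MP_72e2e6_nt.P3.M.Bal
import Pool.Agent.Lib.MP_72e2e6_nt.P3.M.Bgl
import Pool.Agent.Lib.MP_72e2e6_nt.P3.M.Cvl
import Pool.Agent.Lib.MP_72e2e6_nt.P3.M.Fn2
import Pool.Agent.Lib.MP_72e2e6_nt.P3.M.Fnl
import Pool.Agent.Lib.MP_72e2e6_nt.P3.M.Gdx
import Pool.Agent.Lib.MP_72e2e6_nt.P3.M.Lnz
import Pool.Agent.Lib.MP_72e2e6_nt.P3.M.Ndf
import Pool.Agent.Lib.MP_72e2e6_nt.P3.M.Nds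
import Pool.Agent.Lib.MP_72e2e6_nt.P3.M.Ndv
import Pool.Agent.Lib.MP_72e2e6_nt.P3.M.Omr
import Pool.Agent.Lib.MP_72e2e6_nt.P3.M.Rk1
import Pool.Agent.Lib.MP_72e2e6_nt.P3.M.Rlc
import Pool.Agent.Lib.MP_72e2e6_nt.P3.M.Rsl
import Pool.Agent.Lib.MP_72e2e6_nt.P3.M.Tkz
import Pool.Agent.Lib.MP_72e2e6_nt.P3.N.Abv
import Pool.Agent.Lib.MP_72e2e6_nt.P3.N.Alm
import Pool.Agent.Lib.MP_72e2e6_nt.P3.N.App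
import Pool.Agent.Lib.MP_72e2e6_nt.P3.N.Bas
import Pool.Agent.Lib.MP_72e2e6_nt.P3.N.Cmp
import Pool.Agent.Lib.MP_72e2e6_nt.P3.N.Co0
import Pool.Agent.Lib.MP_72e2e6_nt.P3.N.CoK
import Pool.Agent.Lib.MP_72e2e6_nt.P3.N.Den
import Pool.Agent.Lib.MP_72e2e6_nt.P3.N.Dsc
import Pool.Agent.Lib.MP_72e2e6_nt.P3.N.Eul
import Pool.Agent.Lib.MP_72e2e6_nt.P3.N.Exn
import Pool.Agent.Lib.MP_72e2e6_nt.P3.N.Fi0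
import Pool.Agent.Lib.MP_72e2e6_nt.P3.N.FiK
import Pool.Agent.Lib.MP_72e2e6_nt.P3.N.Frc
import Pool.Agent.Lib.MP_72e2e6_nt.P3.N.Na
import Pool.Agent.Lib.MP_72e2e6_nt.P3.N.Ntr
import Pool.Agent.Lib.MP_72e2e6_nt.P3.N.Phl
import Pool.Agent.Lib.MP_72e2e6_nt.P3.N.Rt
import Pool.Agent.Lib.MP_72e2e6_nt.P3.N.Sml
import Pool.Agent.Lib.MP_72e2e6_nt.P3.N.Str
import Pool.Agent.Lib.MP_72e2e6_nt.P3.N2.Chi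
import Pool.Agent.Lib.MP_72e2e6_nt.P3.N2.Dgs
import Pool.Agent.Lib.MP_72e2e6_nt.P3.N2.Dgu
import Pool.Agent.Lib.MP_72e2e6_nt.P3.N2.Eqv
import Pool.Agent.Lib.MP_72e2e6_nt.P3.N2.Gfl
import Pool.Agent.Lib.MP_72e2e6_nt.P3.N2.Idx
import Pool.Agent.Lib.MP_72e2e6_nt.P3.N2.Lft
import Pool.Agent.Lib.MP_72e2e6_nt.P3.N2.Low
import Pool.Agent.Lib.MP_72e2e6_nt.P3.N2.Nom
import Pool.Agent.Lib.MP_72e2e6_nt.P3.N2.Nph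
import Pool.Agent.Lib.MP_72e2e6_nt.P3.N2.Nsp
import Pool.Agent.Lib.MP_72e2e6_nt.P3.N2.PF
import Pool.Agent.Lib.MP_72e2e6_nt.P3.N2.Pfo
import Pool.Agent.Lib.MP_72e2e6_nt.P3.N2.Pfx
import Pool.Agent.Lib.MP_72e2e6_nt.P3.N2.Plc
import Pool.Agent.Lib.MP_72e2e6_nt.P3.N2.Rro
import Pool.Agent.Lib.MP_72e2e6_nt.P3.N2.S0x
import Pool.Agent.Lib.MP_72e2e6_nt.P3.N2.Sha
import Pool.Agent.Lib.MP_72e2e6_nt.P3.N2.Upp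
import Pool.Agent.Lib.MP_72e2e6_nt.P3.R.CGa
import Pool.Agent.Lib.MP_72e2e6_nt.P3.R.CGb
import Pool.Agent.Lib.MP_72e2e6_nt.P3.R.CGe
import Pool.Agent.Lib.MP_72e2e6_nt.P3.R.CLo
import Pool.Agent.Lib.MP_72e2e6_nt.P3.R.Chn
import Pool.Agent.Lib.MP_72e2e6_nt.P3.R.CsF
import Pool.Agent.Lib.MP_72e2e6_nt.P3.R.Ct1
import Pool.Agent.Lib.MP_72e2e6_nt.P3.R.Ct2
import Pool.Agent.Lib.MP_72e2e6_nt.P3.R.Dul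
import Pool.Agent.Lib.MP_72e2e6_nt.P3.R.EqL
import Pool.Agent.Lib.MP_72e2e6_nt.P3.R.Eqc
import Pool.Agent.Lib.MP_72e2e6_nt.P3.R.Eqn
import Pool.Agent.Lib.MP_72e2e6_nt.P3.R.GlN
import Pool.Agent.Lib.MP_72e2e6_nt.P3.R.Ivl
import Pool.Agent.Lib.MP_72e2e6_nt.P3.R.Jac
import Pool.Agent.Lib.MP_72e2e6_nt.P3.R.LDl
import Pool.Agent.Lib.MP_72e2e6_nt.P3.R.LfZ
import Pool.Agent.Lib.MP_72e2e6_nt.P3.R.Lng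
import Pool.Agent.Lib.MP_72e2e6_nt.P3.R.LvA
import Pool.Agent.Lib.MP_72e2e6_nt.P3.R.LvE
import Pool.Agent.Lib.MP_72e2e6_nt.P3.R.LvU
import Pool.Agent.Lib.MP_72e2e6_nt.P3.R.Nmr
import Pool.Agent.Lib.MP_72e2e6_nt.P3.R.Odn
import Pool.Agent.Lib.MP_72e2e6_nt.P3.R.Q0
import Pool.Agent.Lib.MP_72e2e6_nt.P3.R.RCn
import Pool.Agent.Lib.MP_72e2e6_nt.P3.R.RCs
import Pool.Agent.Lib.MP_72e2e6_nt.P3.R.RH90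
import Pool.Agent.Lib.MP_72e2e6_nt.P3.R.RcU
import Pool.Agent.Lib.MP_72e2e6_nt.P3.R.Rec
import Pool.Agent.Lib.MP_72e2e6_nt.P3.R.Rho
import Pool.Agent.Lib.MP_72e2e6_nt.P3.R.TS
import Pool.Agent.Lib.MP_72e2e6_nt.P3.R.TSl
import Pool.Agent.Lib.MP_72e2e6_nt.P3.R.TbF
import Pool.Agent.Lib.MP_72e2e6_nt.P3.R.TbK
import Pool.Agent.Lib.MP_72e2e6_nt.P3.R.TbV
import Pool.Agent.Lib.MP_72e2e6_nt.P3.R.Tba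
import Pool.Agent.Lib.MP_72e2e6_nt.P3.R.Tbp
import Pool.Agent.Lib.MP_72e2e6_nt.P3.R.UnL
import Pool.Agent.Lib.MP_72e2e6_nt.P3.R.Unr
import Pool.Agent.Lib.MP_72e2e6_nt.P3.R.Val
import Pool.Agent.Lib.MP_72e2e6_nt.WP.El.AS
import Pool.Agent.Lib.MP_72e2e6_nt.WP.El.Bas
import Pool.Agent.Lib.MP_72e2e6_nt.WP.El.Deg
import Pool.Agent.Lib.MP_72e2e6_nt.WP.El.Dv
import Pool.Agent.Lib.MP_72e2e6_nt.WP.El.Fr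
import Pool.Agent.Lib.MP_72e2e6_nt.WP.El.Gn
import Pool.Agent.Lib.MP_72e2e6_nt.WP.El.It
import Pool.Agent.Lib.MP_72e2e6_nt.WP.El.Mul
import Pool.Agent.Lib.MP_72e2e6_nt.WP.El.Om
import Pool.Agent.Lib.MP_72e2e6_nt.WP.El.Or
import Pool.Agent.Lib.MP_72e2e6_nt.WP.El.Prm
import Pool.Agent.Lib.MP_72e2e6_nt.WP.El.Pts
import Pool.Agent.Lib.MP_72e2e6_nt.WP.El.Pw
import Pool.Agent.Lib.MP_72e2e6_nt.WP.El.Rk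
import Pool.Agent.Lib.MP_72e2e6_nt.WP.El.Sqr
import Pool.Agent.Lib.MP_72e2e6_nt.WP.El.Vh
import Pool.Agent.Lib.MP_72e2e6_nt.WP.El.Vr
import Pool.Agent.Lib.MP_72e2e6_nt.WP.El.Vs
import Pool.Agent.Lib.MP_72e2e6_nt.WP.Fd.Ccm
import Pool.Agent.Lib.MP_72e2e6_nt.WP.Fd.Cnz
import Pool.Agent.Lib.MP_72e2e6_nt.WP.Fd.Der
import Pool.Agent.Lib.MP_72e2e6_nt.WP.Fd.Dls
import Pool.Agent.Lib.MP_72e2e6_nt.WP.Fd.Dvs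
import Pool.Agent.Lib.MP_72e2e6_nt.WP.Fd.Ev
import Pool.Agent.Lib.MP_72e2e6_nt.WP.Fd.Exc
import Pool.Agent.Lib.MP_72e2e6_nt.WP.Fd.Ext
import Pool.Agent.Lib.MP_72e2e6_nt.WP.Fd.Fco
import Pool.Agent.Lib.MP_72e2e6_nt.WP.Fd.Gg
import Pool.Agent.Lib.MP_72e2e6_nt.WP.Fd.Idl
import Pool.Agent.Lib.MP_72e2e6_nt.WP.Fd.Key
import Pool.Agent.Lib.MP_72e2e6_nt.WP.Fd.Mon
import Pool.Agent.Lib.MP_72e2e6_nt.WP.Fd.Nz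
import Pool.Agent.Lib.MP_72e2e6_nt.WP.Fd.Rid
import Pool.Agent.Lib.MP_72e2e6_nt.WP.Fd.Sl
import Pool.Agent.Lib.MP_72e2e6_nt.WP.Fd.Slc
import Pool.Agent.Lib.MP_72e2e6_nt.WP.Fd.W1
import Pool.Agent.Lib.MP_72e2e6_nt.WP.Fd.WAd
import Pool.Agent.Lib.MP_72e2e6_nt.WP.Fd.WF
import Pool.Agent.Lib.MP_72e2e6_nt.WP.Fd.WRa
import Pool.Agent.Lib.MP_72e2e6_nt.WP.Fd.Wkr
import Pool.Agent.Lib.MP_72e2e6_nt.WP.Fd.Wmp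
import Pool.Agent.Lib.MP_72e2e6_nt.WP.Fd.Wt
import Pool.Agent.Lib.MP_72e2e6_nt.WP.Fd.Wtc
import Pool.Agent.Lib.MP_72e2e6_nt.WP.La.FdT
import Pool.Agent.Lib.MP_72e2e6_nt.WP.La.GdA
import Pool.Agent.Lib.MP_72e2e6_nt.WP.La.HpT
import Pool.Agent.Lib.MP_72e2e6_nt.WP.La.LoT
import Pool.Agent.Lib.MP_72e2e6_nt.WP.La.LoW
import Pool.Agent.Lib.MP_72e2e6_nt.WP.La.RsK
import Pool.Agent.Lib.MP_72e2e6_nt.WP.La.UnT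
import Pool.Agent.Lib.MP_72e2e6_nt.WP.La.UnW
import Pool.Agent.Lib.MP_72e2e6_nt.WP.Lo.Cls
import Pool.Agent.Lib.MP_72e2e6_nt.WP.Lo.Deep
import Pool.Agent.Lib.MP_72e2e6_nt.WP.Lo.Ine
import Pool.Agent.Lib.MP_72e2e6_nt.WP.Lo.Itg
import Pool.Agent.Lib.MP_72e2e6_nt.WP.Lo.Kit
import Pool.Agent.Lib.MP_72e2e6_nt.WP.Lo.Lft
import Pool.Agent.Lib.MP_72e2e6_nt.WP.Lo.Nma
import Pool.Agent.Lib.MP_72e2e6_nt.WP.Lo.Rcl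
import Pool.Agent.Lib.MP_72e2e6_nt.WP.Lo.Rmf
import Pool.Agent.Lib.MP_72e2e6_nt.WP.Lo.Rsd
import Pool.Agent.Lib.MP_72e2e6_nt.WP.Lo.Sbg
import Pool.Agent.Lib.MP_72e2e6_nt.WP.Lo.Unr
import Pool.Agent.Lib.MP_72e2e6_nt.WP.Lo.Unw
import Pool.Agent.Lib.MP_72e2e6_nt.WP.Lo.Vns
import Pool.Agent.Lib.MP_72e2e6_nt.WP.Lo.Wu1
import Pool.Agent.Lib.MP_72e2e6_nt.WP.Lo.Wu2
/-!
# MP_72e2e6_nt, theorem T3p: assembly of the modules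
-/

namespace Pool.Agent.MP72A

theorem aP_Na : MP72P.S_Na :=
  MP72P.tNa

theorem aP_Has : MP72P.S_Has :=
  MP72P.tHas

theorem aP_Fdg : MP72P.S_Fdg :=
  MP72P.tFdg

theorem aV_Pts : MP72V.S_Pts :=
  MP72V.tPts

theorem aV_Bas : MP72V.S_Bas :=
  MP72V.tBas aV_Pts

theorem aP_IdxE : MP72P.S_IdxE :=
  MP72P.tIdxE aV_Bas

theorem aP_Eql : MP72P.S_Eql :=
  MP72P.tEql

theorem aV_Deg : MP72V.S_Deg :=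
  MP72V.tDeg

theorem aV_AS : MP72V.S_AS :=
  MP72V.tAS aV_Pts

theorem aV_Prm : MP72V.S_Prm :=
  MP72V.tPrm

theorem aV_Gn : MP72V.S_Gn :=
  MP72V.tGn aV_Pts aV_Bas aV_AS aV_Deg aV_Prm

theorem aV_Mul : MP72V.S_Mul :=
  MP72V.tMul aV_Pts aV_Bas aV_AS aV_Deg aV_Gn

theorem aV_Sqr : MP72V.S_Sqr :=
  MP72V.tSqr aV_Deg aV_Gn aV_Mul

theorem aV_Om : MP72V.S_Om :=
  MP72V.tOm aV_Pts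

theorem aV_Dv : MP72V.S_Dv :=
  MP72V.tDv

theorem aV_Pw : MP72V.S_Pw :=
  MP72V.tPw aV_Pts aV_Bas aV_Deg aV_Gn aV_Mul aV_Sqr aV_Om aV_Dv

theorem aV_Or : MP72V.S_Or :=
  MP72V.tOr aV_Pts aV_Bas aV_Deg aV_Mul aV_Pw

theorem aV_Fr : MP72V.S_Fr :=
  MP72V.tFr aV_Pts aV_Bas

theorem aV_Vr : MP72V.S_Vr :=
  MP72V.tVr aV_Pts aV_Bas aV_Mul aV_Pw aV_Fr

theorem aV_Vh : MP72V.S_Vh :=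
  MP72V.tVh aV_Pts aV_Bas aV_Pw aV_Fr aV_Vr

theorem aV_It : MP72V.S_It :=
  MP72V.tIt aV_Bas aV_Fr aV_Vh

theorem aV_Vs : MP72V.S_Vs :=
  MP72V.tVs aV_Pts aV_Bas aV_Pw aV_Fr aV_Vr aV_Vh aV_Or aV_Mul

theorem aV_Rk : MP72V.S_Rk :=
  MP72V.tRk aV_Fr aV_Vh aV_Vs aV_It

theorem aP_Rt : MP72P.S_Rt :=
  MP72P.tRt aP_Na

theorem aP_Co0 : MP72P.S_Co0 :=
  MP72P.tCo0

theorem aP_Ntr : MP72P.S_Ntr :=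
  MP72P.tNtr aP_Na

theorem aP_Cmp : MP72P.S_Cmp :=
  MP72P.tCmp aP_Na

theorem aP_Abv : MP72P.S_Abv :=
  MP72P.tAbv aP_Cmp

theorem aP_BasN : MP72P.S_BasN :=
  MP72P.tBasN aP_Na

theorem aP_CoK : MP72P.S_CoK :=
  MP72P.tCoK aP_Na aP_Rt aP_Co0 aP_Ntr aP_Abv aP_BasN

theorem aP_Sml : MP72P.S_Sml :=
  MP72P.tSml aP_Na aP_CoK

theorem aP_Alm : MP72P.S_Alm :=
  MP72P.tAlm aP_Na aP_Rt aP_Ntr aP_Abv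

theorem aP_Frc : MP72P.S_Frc :=
  MP72P.tFrc aP_Na aP_Sml aP_Alm

theorem aP_Twb : MP72P.S_Twb :=
  MP72P.tTwb

theorem aP_Uc : MP72P.S_Uc :=
  MP72P.tUc

theorem aP_Ah : MP72P.S_Ah :=
  MP72P.tAh aP_Uc

theorem aP_Twt : MP72P.S_Twt :=
  MP72P.tTwt aP_Twb

theorem aP_Omi : MP72P.S_Omi :=
  MP72P.tOmi aP_Ah aP_Has aP_Twb aP_Twt

theorem aP_Omi1 : MP72P.S_Omi1 :=
  MP72P.tOmi1 aP_Ah aP_Has aP_Twb aP_Twt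

theorem aP_Hst : MP72P.S_Hst :=
  MP72P.tHst aP_Frc aP_Has aP_Twb aP_Omi aP_Omi1

theorem aP_Res : MP72P.S_Res :=
  MP72P.tRes aP_Has

theorem aP_Rgo : MP72P.S_Rgo :=
  MP72P.tRgo aP_Has aP_Res aP_Hst

theorem aP_Fi0 : MP72P.S_Fi0 :=
  MP72P.tFi0

theorem aP_Exn : MP72P.S_Exn :=
  MP72P.tExn aP_Na

theorem aP_FiK : MP72P.S_FiK :=
  MP72P.tFiK aP_Na aP_Rt aP_Fi0 aP_Ntr aP_Exn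

theorem aP_Dsc : MP72P.S_Dsc :=
  MP72P.tDsc aP_Na aP_CoK aP_FiK

theorem aP_Str : MP72P.S_Str :=
  MP72P.tStr aP_Na aP_CoK aP_Sml

theorem aP_App : MP72P.S_App :=
  MP72P.tApp aP_Na aP_CoK aP_Str

theorem aP_Lc1 : MP72P.S_Lc1 :=
  MP72P.tLc1

theorem aP_Dep : MP72P.S_Dep :=
  MP72P.tDep aP_Na aP_Dsc aP_App aP_Lc1

theorem aP_ShgV : MP72P.S_ShgV :=
  MP72P.tShgV

theorem aP_Fr1V : MP72P.S_Fr1V :=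
  MP72P.tFr1V aP_Res aV_Bas aV_Fr aV_Vh aV_It aP_ShgV

theorem aP_Lrb : MP72P.S_Lrb :=
  MP72P.tLrb

theorem aP_Lfn : MP72P.S_Lfn :=
  MP72P.tLfn

theorem aP_Lrq : MP72P.S_Lrq :=
  MP72P.tLrq aP_Lrb

theorem aP_Fix : MP72P.S_Fix :=
  MP72P.tFix

theorem aP_UniF : MP72P.S_UniF :=
  MP72P.tUniF aP_Fix

theorem aP_Uni2 : MP72P.S_Uni2 :=
  MP72P.tUni2 aP_Fix aP_UniF

theorem aP_Act : MP72P.S_Act :=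
  MP72P.tAct aP_Lrb

theorem aP_Lin2 : MP72P.S_Lin2 :=
  MP72P.tLin2 aP_Lrb aP_Uni2 aP_Act

theorem aP_Lrx : MP72P.S_Lrx :=
  MP72P.tLrx aP_Lrb

theorem aP_Lvl : MP72P.S_Lvl :=
  MP72P.tLvl aP_Uni2

theorem aP_Vdc : MP72P.S_Vdc :=
  MP72P.tVdc

theorem aP_Act2 : MP72P.S_Act2 :=
  MP72P.tAct2

theorem aP_Der2 : MP72P.S_Der2 :=
  MP72P.tDer2 aP_Lrb aP_Uni2 aP_Act aP_Act2 aP_Lin2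

theorem aP_The2 : MP72P.S_The2 :=
  MP72P.tThe2 aP_Lrb aP_Uni2 aP_Act aP_Act2 aP_Der2

theorem aP_EqM2 : MP72P.S_EqM2 :=
  MP72P.tEqM2 aP_Lrb aP_Vdc aP_The2

theorem aP_EqN2 : MP72P.S_EqN2 :=
  MP72P.tEqN2 aP_Lrb aP_Lrq aP_Lrx aP_Lin2 aP_EqM2

theorem aP_Cnt2 : MP72P.S_Cnt2 :=
  MP72P.tCnt2 aP_Lrb aP_Lrx aP_Uni2 aP_Lvl aP_Act aP_Lin2 aP_EqN2

theorem aP_ThA2 : MP72P.S_ThA2 :=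
  MP72P.tThA2 aP_Lrb aP_Lrq aP_Uni2 aP_Act aP_Lin2 aP_Cnt2

theorem aP_VSr : MP72P.S_VSr :=
  MP72P.tVSr aV_Bas aV_Fr aV_Vh aV_It

theorem aP_Lc2 : MP72P.S_Lc2 :=
  MP72P.tLc2 aP_Lc1

theorem aP_Cst : MP72P.S_Cst :=
  MP72P.tCst

theorem aP_Nr : MP72P.S_Nr :=
  MP72P.tNr aP_Lc1 aP_Lc2 aP_Cst

theorem aP_Onr : MP72P.S_Onr :=
  MP72P.tOnr aP_Dsc aP_Lc1 aP_Lc2 aP_Cst aP_Nr aP_Twb aP_Hst aP_Rgo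

theorem aP_Sep : MP72P.S_Sep :=
  MP72P.tSep aP_Ah aP_Has

theorem aP_Nrf : MP72P.S_Nrf :=
  MP72P.tNrf aP_Na aP_Dsc aP_Str aP_Alm aP_Lc1 aP_Lc2 aP_Nr aP_Has aP_Sep aP_Res aP_Onr

theorem aP_Nrg : MP72P.S_Nrg :=
  MP72P.tNrg aP_Has aP_Hst aP_Rgo aP_Nrf

theorem aP_Psf : MP72P.S_Psf :=
  MP72P.tPsf aP_Hst aP_Rgo aP_Onr aP_Nrg

theorem aP_PsiV : MP72P.S_PsiV :=
  MP72P.tPsiV aV_Bas aV_Fr aV_Vh aV_Vs aV_It aV_Rk aP_VSr aP_Has aP_Res aP_Onr aP_Psf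

theorem aP_Mrk : MP72P.S_Mrk :=
  MP72P.tMrk

theorem aP_DscV : MP72P.S_DscV :=
  MP72P.tDscV aP_Res aV_Bas aV_Fr aV_Vh aV_It aV_Rk

theorem aP_Fac : MP72P.S_Fac :=
  MP72P.tFac aP_Fix aP_Hst aP_Rgo aP_Onr aP_Nrg

theorem aP_Aug : MP72P.S_Aug :=
  MP72P.tAug

theorem aP_Kap : MP72P.S_Kap :=
  MP72P.tKap aP_Lrb aP_Aug

theorem aP_Soc : MP72P.S_Soc :=
  MP72P.tSoc aP_Lrb

theorem aP_Vs2 : MP72P.S_Vs2 :=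
  MP72P.tVs2

theorem aP_VSb : MP72P.S_VSb :=
  MP72P.tVSb aP_Lrb aP_Kap aP_Soc aP_Vs2

theorem aP_VS : MP72P.S_VS :=
  MP72P.tVS aP_Res aP_Hst aP_Rgo aP_Onr aP_Fac aV_Bas aV_Fr aV_Vh aV_It aP_VSr aP_VSb

theorem aV_Sl : MP72V.S_Sl :=
  MP72V.tSl aV_Pts

theorem aV_Nz : MP72V.S_Nz :=
  MP72V.tNz aV_Pts aV_Sl

theorem aV_Mon : MP72V.S_Mon :=
  MP72V.tMon

theorem aV_Idl : MP72V.S_Idl :=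
  MP72V.tIdl aV_Pts aV_Sl

theorem aV_Rid : MP72V.S_Rid :=
  MP72V.tRid aV_Mon aV_Idl

theorem aV_Fco : MP72V.S_Fco :=
  MP72V.tFco aV_Pts aV_Rid

theorem aV_Slc : MP72V.S_Slc :=
  MP72V.tSlc aV_Mon aV_Rid

theorem aV_Exc : MP72V.S_Exc :=
  MP72V.tExc aV_Pts aV_Sl aV_Slc

theorem aV_Gg : MP72V.S_Gg :=
  MP72V.tGg aV_Pts aV_Sl aV_Fco aV_Exc aV_Nz

theorem aV_WAd : MP72V.S_WAd :=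
  MP72V.tWAd aV_Nz aV_Gg

theorem aV_Der : MP72V.S_Der :=
  MP72V.tDer

theorem aV_Dls : MP72V.S_Dls :=
  MP72V.tDls aV_Pts aV_Sl aV_Om aV_Slc aV_Exc

theorem aV_Key : MP72V.S_Key :=
  MP72V.tKey aV_Pts aV_Sl aV_Om aV_Slc aV_Dls aV_Nz

theorem aV_Dvs : MP72V.S_Dvs :=
  MP72V.tDvs aV_Pts aV_Sl aV_Mon aV_Idl

theorem aV_Ev : MP72V.S_Ev :=
  MP72V.tEv aV_Pts aV_Bas

theorem aV_Wmp : MP72V.S_Wmp :=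
  MP72V.tWmp aV_Pts aV_Bas aV_Fr

theorem aV_Cnz : MP72V.S_Cnz :=
  MP72V.tCnz aV_Pts aV_Bas aV_Om aV_Dv aV_Mon aV_Dvs aV_Ev aV_Nz aV_Wmp aV_Key

theorem aV_W1 : MP72V.S_W1 :=
  MP72V.tW1 aV_Pts aV_Bas aV_Om aV_Fr aV_WAd aV_Der aV_Key aV_Cnz

theorem aV_Ccm : MP72V.S_Ccm :=
  MP72V.tCcm

theorem aV_WRa : MP72V.S_WRa :=
  MP72V.tWRa aV_Pts aV_Fco aV_Exc aV_Nz aV_Ccm

theorem aV_WF : MP72V.S_WF :=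
  MP72V.tWF aV_Bas aV_Fr aV_Vh aV_It aV_WAd aV_WRa aV_Wmp aV_W1

theorem aV_Wkr : MP72V.S_Wkr :=
  MP72V.tWkr aV_Fr aV_Vh aV_It aV_W1 aV_WF

theorem aV_Ext : MP72V.S_Ext :=
  MP72V.tExt

theorem aV_Wt : MP72V.S_Wt :=
  MP72V.tWt aV_Bas aV_Fr aV_It aV_Rk aV_WAd aV_Wkr aV_Ext

theorem aP_TbK : MP72P.S_TbK :=
  MP72P.tTbK

theorem aP_TbF : MP72P.S_TbF :=
  MP72P.tTbF aP_TbK

theorem aP_FrL : MP72P.S_FrL :=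
  MP72P.tFrL aP_Lc1 aP_Lc2 aP_Cst aP_Nr

theorem aP_Eqn : MP72P.S_Eqn :=
  MP72P.tEqn

theorem aP_LvA : MP72P.S_LvA :=
  MP72P.tLvA aP_Lc1 aP_Lc2 aP_Eqn

theorem aP_RH90 : MP72P.S_RH90 :=
  MP72P.tRH90

theorem aP_LvU : MP72P.S_LvU :=
  MP72P.tLvU aP_Lc1 aP_Lc2 aP_Nr aP_RH90 aP_Eqn

theorem aP_Tba : MP72P.S_Tba :=
  MP72P.tTba

theorem aP_Jac : MP72P.S_Jac :=
  MP72P.tJac

theorem aP_Tbp : MP72P.S_Tbp :=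
  MP72P.tTbp aP_Jac aP_Tba

theorem aP_TbV : MP72P.S_TbV :=
  MP72P.tTbV aP_TbK aP_TbF

theorem aP_CLo : MP72P.S_CLo :=
  MP72P.tCLo aP_Lc1 aP_Lc2 aP_Nr aP_Tba aP_Tbp aP_TbV

theorem aP_TSl : MP72P.S_TSl :=
  MP72P.tTSl aP_RH90 aP_Tba aP_Tbp aP_TbV aP_CLo aP_Eqn

theorem aP_LvE : MP72P.S_LvE :=
  MP72P.tLvE aP_Lc1 aP_Lc2 aP_Nr aP_RH90 aP_TSl aP_Eqn

theorem aP_Ivl : MP72P.S_Ivl :=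
  MP72P.tIvl aP_Lc1 aP_Lc2 aP_LvU aP_LvA aP_LvE aP_Eqn aP_TbF

theorem aP_Eqc : MP72P.S_Eqc :=
  MP72P.tEqc aP_Eqn

theorem aP_Dul : MP72P.S_Dul :=
  MP72P.tDul aP_Lc1 aP_Lc2 aP_Cst aP_Nr aP_Has aP_Sep aP_Tba aP_Tbp aP_TbV aP_Eqn

theorem aP_LfZ : MP72P.S_LfZ :=
  MP72P.tLfZ aP_Lrb

theorem aP_LDl : MP72P.S_LDl :=
  MP72P.tLDl aP_Lc1 aP_Lc2 aP_Has aP_Sep aP_TbF aP_Eqn aP_LvA aP_Ivl aP_Eqc aP_Dul aP_LfZ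

theorem aP_GlN : MP72P.S_GlN :=
  MP72P.tGlN aP_Tba aP_Tbp aP_TbF aP_TbV

theorem aP_EqL : MP72P.S_EqL :=
  MP72P.tEqL aP_Twb aP_Res aP_Eqn aP_Eqc

theorem aP_FrG : MP72P.S_FrG :=
  MP72P.tFrG aP_Cst

theorem aP_Chn : MP72P.S_Chn :=
  MP72P.tChn aP_Tba aP_Tbp

theorem aP_CsF : MP72P.S_CsF :=
  MP72P.tCsF

theorem aP_Lng : MP72P.S_Lng :=
  MP72P.tLng

theorem aP_CGa : MP72P.S_CGa :=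
  MP72P.tCGa

theorem aP_CGb : MP72P.S_CGb :=
  MP72P.tCGb aP_Tba

theorem aP_CGe : MP72P.S_CGe :=
  MP72P.tCGe aP_Tba aP_Tbp aP_TbK aP_TbF aP_Chn aP_CsF aP_Lng aP_CGa aP_CGb

theorem aP_TS : MP72P.S_TS :=
  MP72P.tTS aP_RH90 aP_Tba aP_Tbp aP_TbK aP_TbF aP_CGe

theorem aP_Rho : MP72P.S_Rho :=
  MP72P.tRho aP_RH90 aP_TS aP_Eqn

theorem aP_Val : MP72P.S_Val :=
  MP72P.tVal aP_Lc1 aP_Lc2 aP_Nr aP_Has aP_Res aP_Rho aP_Eqn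

theorem aP_Q0 : MP72P.S_Q0 :=
  MP72P.tQ0 aP_Cst

theorem aP_Nmr : MP72P.S_Nmr :=
  MP72P.tNmr aP_Cst

theorem aP_Odn : MP72P.S_Odn :=
  MP72P.tOdn aP_Lc1 aP_Lc2 aP_Nr aP_Has aP_Res aP_FrL

theorem aP_Dgu : MP72P.S_Dgu :=
  MP72P.tDgu aP_Dsc

theorem aP_Den : MP72P.S_Den :=
  MP72P.tDen

theorem aP_Idx : MP72P.S_Idx :=
  MP72P.tIdx aP_Na aP_Den

theorem aP_Chi : MP72P.S_Chi :=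
  MP72P.tChi aP_Na aP_CoK aP_FiK aP_Idx

theorem aP_Pfx : MP72P.S_Pfx :=
  MP72P.tPfx aP_Chi

theorem aP_Pfo : MP72P.S_Pfo :=
  MP72P.tPfo aP_Alm aP_Dgu aP_Pfx

theorem aP_PF : MP72P.S_PF :=
  MP72P.tPF aP_Dgu aP_Pfo

theorem aP_Rec : MP72P.S_Rec :=
  MP72P.tRec aP_Lc1 aP_Lc2 aP_Nr aP_FrG aP_Rho aP_LvU aP_Val aP_Q0 aP_Nmr aP_Odn aP_PF aP_TbF

theorem aP_Unr : MP72P.S_Unr :=
  MP72P.tUnr aP_Lc1 aP_Lc2 aP_TbF aP_Eqn aP_EqL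

theorem aP_RcU : MP72P.S_RcU :=
  MP72P.tRcU aP_Lc1 aP_Lc2 aP_TbF aP_FrL aP_Eqn aP_Ivl aP_Eqc aP_Rec aP_EqL aP_Unr

theorem aP_Dual2 : MP72P.S_Dual2 :=
  MP72P.tDual2

theorem aP_Us2 : MP72P.S_Us2 :=
  MP72P.tUs2 aP_Lrb aP_Lin2 aP_Dual2

theorem aP_UnL : MP72P.S_UnL :=
  MP72P.tUnL aP_Lrb aP_Act aP_UniF

theorem aP_Ct1 : MP72P.S_Ct1 :=
  MP72P.tCt1 aP_Lin2 aP_UnL

theorem aP_Ct2 : MP72P.S_Ct2 :=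
  MP72P.tCt2 aP_Lrb aP_Act aP_Uni2 aP_UnL

theorem aP_RCn : MP72P.S_RCn :=
  MP72P.tRCn aP_Twb aP_Has aP_Res aP_TbF aP_FrL aP_Eqn aP_LDl aP_GlN aP_EqL aP_RcU aP_Us2 aP_Ct1
    aP_Ct2

theorem aP_RCs : MP72P.S_RCs :=
  MP72P.tRCs aP_TbF aP_Dsc aP_Hst aP_Onr aP_RCn

theorem aV_Wtc : MP72V.S_Wtc :=
  MP72V.tWtc aV_Bas aV_It aV_Rk aV_WRa aV_Wmp

theorem aP_Uw : MP72P.S_Uw :=
  MP72P.tUw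

theorem aP_FSu : MP72P.S_FSu :=
  MP72P.tFSu aV_Bas aV_Fr aV_It aV_Wt aV_Wtc aP_Has aP_Hst aP_Rgo aP_Onr aP_Uw

theorem aP_FS : MP72P.S_FS :=
  MP72P.tFS aP_Lrb aV_It aV_Wt aP_Hst aP_RCs aP_FSu

theorem aP_CycV : MP72P.S_CycV :=
  MP72P.tCycV aP_ShgV

theorem aP_FshV : MP72P.S_FshV :=
  MP72P.tFshV aP_ShgV aP_CycV

theorem aP_OneV : MP72P.S_OneV :=
  MP72P.tOneV aP_Lrb aP_Lin2 aP_Res aP_Has aP_Hst aP_Rgo aV_It aP_VSr aP_DscV aP_VS aP_FS aP_FshV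

theorem aP_Man : MP72P.S_Man :=
  MP72P.tMan aP_Lrb aP_Lfn aP_ThA2 aP_Hst aV_It aP_PsiV aP_Dep aP_Mrk aP_OneV

theorem aP_Plc : MP72P.S_Plc :=
  MP72P.tPlc aP_Rt aP_Exn

theorem aP_Gfl : MP72P.S_Gfl :=
  MP72P.tGfl

theorem aP_Ntm : MP72P.S_Ntm :=
  MP72P.tNtm aV_Pts aV_Bas aV_Mul

theorem aP_Nbh : MP72P.S_Nbh :=
  MP72P.tNbh aV_Pts aV_Bas aV_Deg aV_Mul aV_Pw aP_Na

theorem aP_Clo : MP72P.S_Clo :=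
  MP72P.tClo aV_Pts aP_Na

theorem aP_Cvr : MP72P.S_Cvr :=
  MP72P.tCvr

theorem aP_Dvi : MP72P.S_Dvi :=
  MP72P.tDvi aV_Pts aV_Bas aP_Nbh aP_Clo aP_Cvr

theorem aP_Fxh : MP72P.S_Fxh :=
  MP72P.tFxh aV_Bas

theorem aP_EN : MP72P.S_EN :=
  MP72P.tEN aP_Plc aP_Dsc aP_Gfl aV_Bas aP_Ntm aP_Dvi aP_Fxh

theorem aP_Rro : MP72P.S_Rro :=
  MP72P.tRro aP_Na aP_CoK aP_Str aP_Sml aP_Chi aP_Pfo aP_Dgu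

theorem aP_Dgs : MP72P.S_Dgs :=
  MP72P.tDgs aP_Na aP_Sml aP_Pfo aP_Plc aP_Dgu

theorem aP_Upp : MP72P.S_Upp :=
  MP72P.tUpp aP_Na aP_Plc aP_Pfo aP_Rro aP_Dgs aP_Dgu

theorem aP_Low : MP72P.S_Low :=
  MP72P.tLow aP_Na aP_Plc aP_Pfo aP_Rro aP_Dgs aP_Dgu

theorem aP_Lft : MP72P.S_Lft :=
  MP72P.tLft aP_Na

theorem aP_Nsp : MP72P.S_Nsp :=
  MP72P.tNsp aP_Upp aP_Low aP_Lft aP_Gfl aP_Dgu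

theorem aP_Nom : MP72P.S_Nom :=
  MP72P.tNom aP_Nsp

theorem aP_Phl : MP72P.S_Phl :=
  MP72P.tPhl aP_Na

theorem aP_Eul : MP72P.S_Eul :=
  MP72P.tEul aP_Na aP_CoK aP_FiK aP_Den aP_Phl

theorem aP_Nph : MP72P.S_Nph :=
  MP72P.tNph aP_Nsp aP_Gfl aP_Abv aP_Ntr

theorem aP_Sha : MP72P.S_Sha :=
  MP72P.tSha aP_Na aP_Str aP_Den aP_Phl aP_Eul aP_Nph

theorem aP_Eqv : MP72P.S_Eqv :=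
  MP72P.tEqv

theorem aP_S0x : MP72P.S_S0x :=
  MP72P.tS0x aP_Alm aP_Dgu aP_Pfo aP_Plc aP_Nom aP_Sha aP_Eqv

theorem aV_GdA : MP72V.S_GdA :=
  MP72V.tGdA aV_Pw aV_Or aP_Alm

theorem aV_Nma : MP72V.S_Nma :=
  MP72V.tNma aP_Lc1 aP_Lc2

theorem aV_Itg : MP72V.S_Itg :=
  MP72V.tItg aV_Bas aV_Deg aV_Pw

theorem aV_Sbg : MP72V.S_Sbg :=
  MP72V.tSbg aV_Pts aV_AS

theorem aV_Rcl : MP72V.S_Rcl :=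
  MP72V.tRcl aV_Pts aV_Sbg

theorem aV_Kit : MP72V.S_Kit :=
  MP72V.tKit aV_Bas aV_Pw aV_Fr aV_Vr aV_Vh aV_It aV_Itg

theorem aV_Ine : MP72V.S_Ine :=
  MP72V.tIne aV_Bas aV_It aV_Itg aV_Rcl aV_Kit

theorem aV_Rsd : MP72V.S_Rsd :=
  MP72V.tRsd aP_Lc1 aP_Lc2 aP_Cst

theorem aV_UnT : MP72V.S_UnT :=
  MP72V.tUnT aV_Nma aV_Ine aV_Rsd

theorem aV_Wu1 : MP72V.S_Wu1 :=
  MP72V.tWu1 aV_Pts aV_Bas aV_Sl aV_Nz aV_It aV_Itg aV_Rcl aV_Kit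

theorem aV_Wu2 : MP72V.S_Wu2 :=
  MP72V.tWu2 aV_Pts aV_AS

theorem aV_Unr : MP72V.S_Unr :=
  MP72V.tUnr aV_Bas aV_It aV_WAd aV_Nz aV_Itg aV_Wu1 aV_Wu2

theorem aV_Unw : MP72V.S_Unw :=
  MP72V.tUnw aV_Pts aV_Bas aV_It aV_Wmp aV_WAd aV_Itg aV_Unr

theorem aV_RsK : MP72V.S_RsK :=
  MP72V.tRsK aV_Bas aV_Nma aP_Lc1 aP_Lc2 aP_Cst aP_Nr

theorem aV_FdT : MP72V.S_FdT :=
  MP72V.tFdT aV_Bas aV_It aV_Unw aV_RsK aV_UnT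

theorem aP_UnW : MP72P.S_UnW :=
  MP72P.tUnW aV_GdA aV_UnT aV_FdT aP_Dsc

theorem aV_HpT : MP72V.S_HpT :=
  MP72V.tHpT aP_Lc1 aP_Has aP_Sep

theorem aV_Cls : MP72V.S_Cls :=
  MP72V.tCls aV_Pts aV_Sbg

theorem aV_Vns : MP72V.S_Vns :=
  MP72V.tVns aV_Pts aV_Bas aV_Pw aV_Vr aV_Vh aV_Or aV_Sbg

theorem aV_Lft : MP72V.S_Lft :=
  MP72V.tLft aV_Vh aV_Vs aV_It aV_Vns

theorem aV_Rmf : MP72V.S_Rmf :=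
  MP72V.tRmf aP_Lc1 aP_Lc2

theorem aV_Deep : MP72V.S_Deep :=
  MP72V.tDeep aV_Bas aV_Fr aV_Vh aV_It aV_Nma aV_Sbg aV_Cls aV_Vns aV_Lft aV_Rmf

theorem aV_LoT : MP72V.S_LoT :=
  MP72V.tLoT aV_HpT aV_Deep

theorem aP_LoW : MP72P.S_LoW :=
  MP72P.tLoW aV_Fr aV_Vh aV_LoT aP_Dsc

theorem aP_Cnk : MP72P.S_Cnk :=
  MP72P.tCnk

theorem aP_Krs : MP72P.S_Krs :=
  MP72P.tKrs aP_Lc1 aP_Lc2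

theorem aP_Cbg : MP72P.S_Cbg :=
  MP72P.tCbg aP_Krs

theorem aP_Fdl : MP72P.S_Fdl :=
  MP72P.tFdl

theorem aP_Dbs : MP72P.S_Dbs :=
  MP72P.tDbs aP_Fdl

theorem aP_Lcl : MP72P.S_Lcl :=
  MP72P.tLcl aP_Lc1 aP_Has aP_Sep

theorem aP_Dbl : MP72P.S_Dbl :=
  MP72P.tDbl aP_Cnk aP_Cbg aP_Dbs aP_Lc2 aP_Has aP_Lcl

theorem aP_Lk1 : MP72P.S_Lk1 :=
  MP72P.tLk1 aP_Has aP_Hst aP_Rgo

theorem aP_Lq1 : MP72P.S_Lq1 :=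
  MP72P.tLq1 aP_Dsc aP_Str aP_Den aP_Eul aP_Lc1 aP_Has aP_Hst aP_Rgo aP_Lcl

theorem aP_Lw0 : MP72P.S_Lw0 :=
  MP72P.tLw0 aP_Dsc aP_Str aP_Has aP_Hst aP_Rgo aP_Lcl

theorem aP_Tsk : MP72P.S_Tsk :=
  MP72P.tTsk

theorem aP_Lts : MP72P.S_Lts :=
  MP72P.tLts aP_Dsc aP_Sep aP_Hst aP_Rgo aP_Dbl aP_Lk1 aP_Lq1 aP_Lw0 aP_Tsk

theorem aP_Bgl : MP72P.S_Bgl :=
  MP72P.tBgl aP_Dsc aP_App aP_FiK aP_Lc1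

theorem aP_Cvl : MP72P.S_Cvl :=
  MP72P.tCvl

theorem aP_Asl : MP72P.S_Asl :=
  MP72P.tAsl

theorem aP_Rk1 : MP72P.S_Rk1 :=
  MP72P.tRk1 aP_Na aP_Den aP_Frc aP_Dgu aP_Chi

theorem aP_Lnz : MP72P.S_Lnz :=
  MP72P.tLnz aP_Str aP_Den

theorem aP_Rlc : MP72P.S_Rlc :=
  MP72P.tRlc aP_Cvl

theorem aP_Tkz : MP72P.S_Tkz :=
  MP72P.tTkz aP_Has aP_Hst aP_Rgo aP_Uni2 aP_Act2

theorem aP_Fnl : MP72P.S_Fnl :=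
  MP72P.tFnl aP_Dsc aP_Lc2 aP_Has aP_Sep aP_Hst aP_Rgo aP_Uni2 aP_Act2 aP_Rlc aP_Tkz

theorem aP_Omr : MP72P.S_Omr :=
  MP72P.tOmr aP_Twb aP_Hst

theorem aP_Rsl : MP72P.S_Rsl :=
  MP72P.tRsl aP_Hst aP_Rgo aP_Cvl

theorem aP_Bal : MP72P.S_Bal :=
  MP72P.tBal aP_Lc1

theorem aP_Fn2 : MP72P.S_Fn2 :=
  MP72P.tFn2 aP_Dsc aP_Has aP_Sep aP_Hst aP_Rgo aP_Rlc aP_Omr aP_Rsl aP_Bal

theorem aP_Ndf : MP72P.S_Ndf :=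
  MP72P.tNdf aP_Has aP_Hst aP_Rgo aP_Uni2 aP_Act2 aP_Lk1

theorem aP_Ndv : MP72P.S_Ndv :=
  MP72P.tNdv aP_Dsc aP_Has aP_Sep aP_Hst aP_Rgo aP_Lk1 aP_Rlc aP_Ndf

theorem aP_Nds : MP72P.S_Nds :=
  MP72P.tNds aP_Dsc aP_Hst aP_Uni2 aP_Act2 aP_Lk1 aP_Cvl aP_Asl aP_Rk1 aP_Lnz aP_Fnl aP_Fn2
    aP_Ndv

theorem aP_Gdx : MP72P.S_Gdx :=
  MP72P.tGdx aP_Na aP_FiK aP_Has aP_Hst aP_Bgl aP_Nds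

theorem aP_GdT : MP72P.S_GdT :=
  MP72P.tGdT aP_Has aP_Hst aP_Rgo aP_Lts aP_Gdx

theorem aP_Alp : MP72P.S_Alp :=
  MP72P.tAlp aP_RH90 aV_Bas aV_It aP_Has

theorem aP_Nbd : MP72P.S_Nbd :=
  MP72P.tNbd aP_Lrb aP_Lfn aP_Hst aP_Rgo aV_It aP_FS

theorem aP_Thm : MP72P.S_Thm :=
  MP72P.tThm aV_Bas aV_Or aV_It aV_Rk aP_Has aP_Hst aP_Rgo aP_Dep aP_Fr1V aP_Man aP_EN aP_S0x
    aP_UnW aP_LoW aP_GdT aP_Alp aP_Nbd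

theorem aP_Fin : MP72P.S_Fin :=
  MP72P.tFin aP_Na aP_Has aP_Fdg aP_IdxE aP_Eql aP_Thm

end Pool.Agent.MP72A
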