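import Mathlib

/-!
# MP_72e2e6_nt, theorem T3p (odd `p`, every global function field): common definitions

`p` is a prime number, `K` a global function field of characteristic `p`. Places are given by
absolute values `v : AbsoluteValue K ℝ`; `v.Completion` is the completion, `Kvs v` its separable
closure with the spectral norm `nm v`, `Kgs K` the separable closure of `K`.
-/

namespace Pool.Agent.MP72P

open Polynomial IntermediateField

/-- `K` is a global function field of characteristic `p`: a finite separable extension of a field of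
rational functions `F(t)`, `F` a finite field. -/
def GFld (p : ℕ) (K : Type) [Field K] : Prop :=
  ∃ (F : Type) (_ : Field F) (_ : Finite F) (_ : CharP F p) (_ : Algebra (RatFunc F) K),
    FiniteDimensional (RatFunc F) K ∧ Algebra.IsSeparable (RatFunc F) K

/-- The properties of the absolute values used in the local theory: `Q` is the order of the residue
field, a power of `p`, `ϖ` a uniformizer, `R` a system of representatives of the residue field. -/
structure LF {K : Type} [Field K] (v : AbsoluteValue K ℝ) (p Q : ℕ) (ϖ : K) (R : Finset K) :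
    Prop where
  na : IsNonarchimedean v
  pi0 : 0 < v ϖ
  pi1 : v ϖ < 1
  disc : ∀ x, x ≠ 0 → ∃ n : ℤ, v x = v ϖ ^ n
  qp : ∃ r : ℕ, 1 ≤ r ∧ Q = p ^ r
  frob : ∀ x, v x ≤ 1 → v (x ^ Q - x) < 1
  card : R.card = Q
  int : ∀ r ∈ R, v r ≤ 1
  sep : ∀ r ∈ R, ∀ r' ∈ R, r ≠ r' → v (r - r') = 1
  cov : ∀ x, v x ≤ 1 → ∃ r ∈ R, v (x - r) < 1

/-- The separable closure of the completion. -/
abbrev Kvs {K : Type} [Field K] (v : AbsoluteValue K ℝ) : Type := SeparableClosure v.Completion

/-- The separable closure. -/
abbrev Kgs (K : Type) [Field K] : Type := SeparableClosure K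

/-- The norm on the separable closure of the completion. -/
noncomputable def nm {K : Type} [Field K] (v : AbsoluteValue K ℝ) (x : Kvs v) : ℝ :=
  spectralNorm v.Completion (Kvs v) x

/-- The constants: elements `x` with `x ^ (p ^ n) = x` for some `n ≥ 1`. -/
def Cst (p : ℕ) (L : Type) [Field L] : Set L := {x | ∃ n : ℕ, 1 ≤ n ∧ x ^ p ^ n = x}

/-- The maximal unramified extension of the completion. -/
noncomputable def Knr {K : Type} [Field K] (p : ℕ) (v : AbsoluteValue K ℝ) :
    IntermediateField v.Completion (Kvs v) :=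
  adjoin v.Completion (Cst p (Kvs v))

/-- The maximal constant extension of `K`. -/
noncomputable def Kgeo (p : ℕ) (K : Type) [Field K] : IntermediateField K (Kgs K) :=
  adjoin K (Cst p (Kgs K))

/-- `g` acts on the constants as `x ↦ x ^ Q`. -/
def IsFro (p Q : ℕ) {L : Type} [Field L] (g : L → L) : Prop := ∀ x ∈ Cst p L, g x = x ^ Q

/-- `g` acts trivially on the constants. -/
def IsGeo (p : ℕ) {L : Type} [Field L] (g : L → L) : Prop := ∀ x ∈ Cst p L, g x = x

/-- The restriction of `g` to `Ω` along the embedding `ι` is `σ`. -/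
def Rst {K Ω L : Type} [Field K] [Field Ω] [Field L] [Algebra K Ω] [Algebra K L]
    (ι : Ω →ₐ[K] L) (g : L → L) (σ : Gal(Ω/K)) : Prop := ∀ x, g (ι x) = ι (σ x)

open Classical in
/-- The restriction homomorphism along an embedding (if it exists). -/
noncomputable def rsH {K Ω M L : Type} [Field K] [Field Ω] [Field M] [Field L] [Algebra K Ω]
    [Algebra K L] [Algebra M L] (ι : Ω →ₐ[K] L) : Gal(L/M) →* Gal(Ω/K) :=
  if h : ∃ r : Gal(L/M) →* Gal(Ω/K), Continuous r ∧ ∀ g : Gal(L/M), Rst ι g (r g) then h.choose else 1

/-- The element of `L` given by `c ∈ ZMod p`. -/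
def op {p : ℕ} (L : Type) [Field L] (c : ZMod p) : L := ((c.val : ℕ) : L)

/-- The operator `x ↦ x ^ p - h x`. -/
def Ph (p : ℕ) {L : Type} [Field L] (h x : L) : L := x ^ p - h * x

open Classical in
/-- A root of `x ^ p - h x = f` (or `0` if there is none). -/
noncomputable def asr (p : ℕ) {L : Type} [Field L] (h f : L) : L :=
  if H : ∃ x : L, Ph p h x = f then H.choose else 0

open Classical in
/-- The character `ω` of `α ∈ L` (with `α ^ (p - 1) ∈ K`): `g α = ω(g) α`. -/
noncomputable def omc (p : ℕ) {K L : Type} [Field K] [Field L] [Algebra K L] (α : L)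
    (g : Gal(L/K)) : ZMod p :=
  if H : ∃ c : ZMod p, g α = op L c * α then H.choose else 1

open Classical in
/-- The crossed homomorphism of `f ∈ K` for `ω`: `g x = x + hP(g) α` for the roots `x ∈ L` of
`x ^ p - h x = f`, `h = α ^ (p - 1)`. For `α = 1` this is the Artin-Schreier homomorphism. -/
noncomputable def hP (p : ℕ) {K L : Type} [Field K] [Field L] [Algebra K L] (α : L) (f : K)
    (g : Gal(L/K)) : ZMod p :=
  if H : ∃ c : ZMod p, g (asr p (α ^ (p - 1)) (algebraMap K L f)) =
    asr p (α ^ (p - 1)) (algebraMap K L f) + op L c * α then H.choose else 0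

/-- Towers of Artin-Schreier extensions of `K(α)` by roots of `θ ^ p - θ = m`, `m` integral over
`A`. -/
inductive Twr (p : ℕ) (A K Ks : Type*) [CommRing A] [Field K] [Field Ks] [Algebra K Ks] [Algebra A Ks]
    (α : Ks) : IntermediateField K Ks → Prop
  | bot : Twr p A K Ks α K⟮α⟯
  | step (M : IntermediateField K Ks) (θ : Ks) : Twr p A K Ks α M → IsIntegral A (θ ^ p - θ) →
      θ ^ p - θ ∈ M → Twr p A K Ks α (M ⊔ K⟮θ⟯)

/-- The union of the towers. -/
noncomputable def Om (p : ℕ) (A K Ks : Type*) [CommRing A] [Field K] [Field Ks] [Algebra K Ks]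
    [Algebra A Ks] (α : Ks) : IntermediateField K Ks := sSup {M | Twr p A K Ks α M}

/-- A finite family of places: nontrivial and pairwise not equivalent absolute values. -/
structure Pls {K : Type} [Field K] {J : Type} (av : J → AbsoluteValue K ℝ) : Prop where
  ntr : ∀ j, (av j).IsNontrivial
  inq : ∀ j j', j ≠ j' → ¬ (av j).IsEquiv (av j')

/-- The functions which are regular outside the places `av j`. -/
noncomputable def OS {K : Type} [Field K] {J : Type} (av : J → AbsoluteValue K ℝ) : Subring K where
  carrier := {f | ∀ v : AbsoluteValue K ℝ, v.IsNontrivial → IsNonarchimedean v →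
    (∀ j, ¬ v.IsEquiv (av j)) → v f ≤ 1}
  mul_mem' := by
    intro a b ha hb v h1 h2 h3
    rw [map_mul]
    exact mul_le_one₀ (ha v h1 h2 h3) (v.nonneg _) (hb v h1 h2 h3)
  one_mem' := by
    intro v _ _ _
    rw [map_one]
  add_mem' := by
    intro a b ha hb v h1 h2 h3
    exact (h2 a b).trans (max_le (ha v h1 h2 h3) (hb v h1 h2 h3))
  zero_mem' := by
    intro v _ _ _
    rw [map_zero]
    exact zero_le_one
  neg_mem' := by
    intro a ha v h1 h2 h3
    rw [AbsoluteValue.map_neg]
    exact ha v h1 h2 h3

/-- `a` and `b` are equal modulo `N`-th powers. -/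
def EqN (N : ℕ) {L : Type} [Field L] (a b : L) : Prop := ∃ s : L, s ≠ 0 ∧ a = b * s ^ N

end Pool.Agent.MP72P
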